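import Pool.Agent.Helper43.UN.GoalsR

/-!
# Project UN: number of the points which have not started (packet V3un)
-/

set_option autoImplicit false

namespace Pool.Agent.Helper89.UN

open Finset
open Pool.Agent.Lead.Sh
open Pool.Agent.Helper43.Hw (T na va lz Play aa ac sc oo sk U Dd Sd Pn nx bb np two_T T_zero
  T_succ T_mono)
open Pool.Agent.Helper43.Gm (Pri st mv nn)
open Pool.Agent.Helper18.EW
open Pool.Agent.Helper18.UW (Par4 UGrp uV UPlay uz UPre uo us vk vx vd GoalU1)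
open Pool.Agent.Helper43.UN

theorem T_sum (k : ℕ) : ∑ j ∈ range k, (j + 1) = T k := by
  induction k with
  | zero => rfl
  | succ k ih => rw [sum_range_succ, ih, T_succ]

theorem na_sum {τ R k : ℕ} (h : τ + k ≤ R) : T k ≤ ∑ z ∈ Ico τ R, na k R z := by
  have h1 : Ico (R - k) R ⊆ Ico τ R := by
    intro z hz
    rw [mem_Ico] at hz ⊢
    omega
  refine le_trans (le_of_eq ?_) (sum_le_sum_of_subset h1)
  rw [sum_Ico_eq_sum_range, ← T_sum]
  have h2 : R - (R - k) = k := by omega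
  rw [h2]
  refine sum_congr rfl fun j hj => ?_
  rw [mem_range] at hj
  unfold na
  omega

/-- the sizes of the parameters -/
theorem sizes {m ms : ℕ → ℕ} {M Mb μ δ R A E0 βp βm N00 N0 N K b l Lg q v : ℕ} {ℓ : ℕ → ℕ}
    {W : ℤ} (h : Su m ms M Mb μ δ R A E0 βp βm N00 N0 N K b l Lg q v ℓ W) :
    100 * δ ≤ μ ∧ 1000 * (2 ^ q * v) ≤ μ ∧ 128000 ≤ μ ∧ l ≤ 2 ^ q * v ∧ 1 ≤ l := by
  have hp := h.par
  have h1 := hp.l1
  have h2 := hp.L1
  have h3 := hp.b1
  have h4 := hp.b2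
  have h5 := h.vb
  have h6 := h.vc
  have h7 := h.d1
  set v1 := 2 ^ q * v with hv1
  have hb : 2 ^ 42 ≤ b := by omega
  have h8 : 2 ^ 33 * (b * l) ≤ μ := by
    have e : 2 ^ 33 * b * (q + 1) ^ 2 * l = 2 ^ 33 * (b * l) * (q + 1) ^ 2 := by ring
    have h9 : 1 ≤ (q + 1) ^ 2 := Nat.one_le_pow _ _ (by omega)
    calc 2 ^ 33 * (b * l) = 2 ^ 33 * (b * l) * 1 := by ring
      _ ≤ 2 ^ 33 * (b * l) * (q + 1) ^ 2 := Nat.mul_le_mul_left _ h9
      _ ≤ μ := by rw [← e]; exact h4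
  have h10 : 2 ^ 42 * l ≤ b * l := Nat.mul_le_mul_right l hb
  refine ⟨by omega, by omega, by omega, by omega, h1⟩

/-- V3un. -/
theorem goalV3un (hU1 : GoalU1) : GoalV3un := by
  intro m ms M Mb μ δ R A E0 βp βm N00 N0 N K b l Lg q v τ ℓ W κ x hS hR
  obtain ⟨s1, s2, s3, s4, s5⟩ := sizes hS
  have hRM := hS.sg.pf.R1
  have hM1 := hS.sg.pf.M1
  have hRE := hS.sg.pf.RE
  have hμM := hS.sg.μM
  have hm : ∀ c < N, 1 ≤ m c ∧ m c + 2 ≤ R := by
    intro c hc
    by_cases h00 : c < N00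
    · have := hS.sg.pre0 c h00
      omega
    by_cases h : c < N0
    · have := hS.sg.pre c (by omega) h
      omega
    · have := hS.sg.main c (by omega) hc
      omega
  obtain ⟨-, -, -, -, -, -, -, -, hsum⟩ := hU1 m R N κ x hm (by omega) hR.play
  have t1 := hR.t1
  have t2 := hR.t2
  have g2 := hR.g2
  set v1 := 2 ^ q * v with hv1
  have hτR : τ + 1 + μ ≤ R := by omega
  have hτM : R - 60 * M ≤ τ := by omega
  have hN0 : N0 ≤ κ τ := by
    have key : ∀ k, R - 60 * M + k ≤ τ → κ (R - 60 * M) ≤ κ (R - 60 * M + k) := by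
      intro k
      induction k with
      | zero => intro _; exact le_rfl
      | succ k ih =>
        intro hk
        exact (ih (by omega)).trans (hR.play.mono _ (by omega))
    have := key (τ - (R - 60 * M)) (by omega)
    rw [show R - 60 * M + (τ - (R - 60 * M)) = τ by omega] at this
    exact hR.n0.trans this
  -- lower bound
  have hlow : (N - κ τ) * T (μ - δ) ≤ ∑ z ∈ Ico τ R, uz m R N κ x z := by
    have e1 : ∀ z ∈ Ico τ R, ∑ c ∈ Ico (κ τ) N, na (m c) R z ≤ uz m R N κ x z := by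
      intro z hz
      rw [mem_Ico] at hz
      unfold uz
      have h1 : Ico (κ τ) N ⊆ range N := by
        intro c hc
        rw [mem_Ico] at hc
        exact mem_range.2 hc.2
      refine le_trans (le_of_eq ?_) (sum_le_sum_of_subset h1)
      refine sum_congr rfl fun c hc => ?_
      rw [mem_Ico] at hc
      obtain ⟨p1, p2⟩ := hR.pa z hz.1 hz.2
      unfold va
      by_cases h : κ z < c
      · rw [if_pos h]
      · have hc' : c = κ τ := by omega
        rw [if_neg h]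
        unfold nn
        rw [if_neg h, if_pos (by omega), p2, hc']
    have e2 : ∀ c ∈ Ico (κ τ) N, T (μ - δ) ≤ ∑ z ∈ Ico τ R, na (m c) R z := by
      intro c hc
      rw [mem_Ico] at hc
      have := hS.main c (by omega) hc.2
      exact (T_mono (by omega)).trans (na_sum (by omega))
    calc (N - κ τ) * T (μ - δ) = ∑ c ∈ Ico (κ τ) N, T (μ - δ) := by
          rw [sum_const, Nat.card_Ico, smul_eq_mul]
      _ ≤ ∑ c ∈ Ico (κ τ) N, ∑ z ∈ Ico τ R, na (m c) R z := sum_le_sum e2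
      _ = ∑ z ∈ Ico τ R, ∑ c ∈ Ico (κ τ) N, na (m c) R z := sum_comm
      _ ≤ _ := sum_le_sum e1
  -- upper bound
  have hup : ∑ z ∈ Ico τ R, uz m R N κ x z ≤ (R - τ) * A + 2 * A := by
    have htot := hS.sg.tot
    have hW := hS.hW
    have a1 : ∑ z ∈ range τ, uz m R N κ x z + ∑ z ∈ Ico τ R, uz m R N κ x z =
        ∑ z ∈ range R, uz m R N κ x z := sum_range_add_sum_Ico _ (by omega)
    have a2 : ∑ z ∈ range τ, ℓ z + ∑ z ∈ Ico τ R, ℓ z =
        ∑ z ∈ range R, ℓ z := sum_range_add_sum_Ico _ (by omega)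
    have a3 : ∑ z ∈ range τ, uz m R N κ x z = ∑ z ∈ range τ, ℓ z :=
      sum_congr rfl fun z hz => hR.ex z (mem_range.1 hz)
    have a4 : ∑ z ∈ Ico τ R, ℓ z ≤ (R - τ) * A := by
      have := sum_le_card_nsmul (Ico τ R) (fun z => ℓ z) A (by
        intro z hz
        rw [mem_Ico] at hz
        exact hS.sg.pf.le z hz.2)
      rwa [Nat.card_Ico, smul_eq_mul] at this
    have a5 : (0 : ℤ) ≤ ∑ i ∈ range K, (T (ms i) : ℤ) := sum_nonneg fun i _ => Int.natCast_nonneg _
    have a6 : ((∑ z ∈ range R, ℓ z : ℕ) : ℤ) =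
        ∑ c ∈ range N, (T (m c) : ℤ) + (∑ i ∈ range K, (T (ms i) : ℤ) + W) := by
      rw [← htot]
      push_cast
      rfl
    have a7 : ((∑ z ∈ range R, uz m R N κ x z : ℕ) : ℤ) = ∑ c ∈ range N, (T (m c) : ℤ) := by
      rw [hsum]
      push_cast
      rfl
    have a8 := (abs_le.1 hW).1
    have a9 : ((∑ z ∈ range R, uz m R N κ x z : ℕ) : ℤ) ≤
        ((∑ z ∈ range R, ℓ z : ℕ) : ℤ) + 2 * A := by
      rw [a6, a7]; linarith
    have a10 : ∑ z ∈ range R, uz m R N κ x z ≤ ∑ z ∈ range R, ℓ z + 2 * A := by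
      exact_mod_cast a9
    omega
  -- the estimate
  have hmain := hlow.trans hup
  have hT := two_T (μ - δ)
  set X := μ - δ with hX
  have hhi := hS.hi
  have hX1 : 99 * μ ≤ 100 * X := by omega
  have hRτ : 1000 * (R - τ) ≤ 1001 * μ := by omega
  have b2 : 1000 * (R - τ) * (l * A) ≤ 1001 * μ * (32 * μ ^ 2) :=
    Nat.mul_le_mul hRτ hhi
  have b3 : 1000 * (4 * (l * A)) ≤ μ ^ 3 := by
    have c1 : 128000 * μ ^ 2 ≤ μ * μ ^ 2 := Nat.mul_le_mul_right _ s3
    have c2 : μ * μ ^ 2 = μ ^ 3 := by ring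
    omega
  have b4 : l * (N - κ τ) * (X * (X + 1)) ≤ 65 * μ ^ 3 := by
    have c1 : l * (N - κ τ) * (X * (X + 1)) = 2 * l * ((N - κ τ) * T X) := by
      rw [← hT]; ring
    have c2 : 2 * l * ((N - κ τ) * T X) ≤ 2 * l * ((R - τ) * A + 2 * A) :=
      Nat.mul_le_mul_left _ hmain
    have c3 : 2 * l * ((R - τ) * A + 2 * A) =
        2 * ((R - τ) * (l * A)) + 4 * (l * A) := by ring
    have c4 : 1000 * (R - τ) * (l * A) = 1000 * ((R - τ) * (l * A)) := by ring
    have c5 : 1001 * μ * (32 * μ ^ 2) = 32032 * μ ^ 3 := by ring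
    omega
  have b5 : 9801 * μ ^ 2 ≤ 10000 * (X * (X + 1)) := by
    have c1 : 99 * μ * (99 * μ) ≤ 100 * X * (100 * X) := Nat.mul_le_mul hX1 hX1
    nlinarith
  by_contra hcon
  push Not at hcon
  have b6 : 140 * μ * (9801 * μ ^ 2) ≤ l * (N - κ τ) * (10000 * (X * (X + 1))) :=
    Nat.mul_le_mul hcon.le b5
  have b7 : l * (N - κ τ) * (10000 * (X * (X + 1))) =
      10000 * (l * (N - κ τ) * (X * (X + 1))) := by ring
  have b8 : 140 * μ * (9801 * μ ^ 2) = 1372140 * μ ^ 3 := by ring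
  have b9 : 0 < μ ^ 3 := by positivity
  omega

end Pool.Agent.Helper89.UN
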