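import Pool.Agent.Helper43.UN.GoalsF
import Pool.Agent.Helper75.SG.S2
import Pool.Agent.Helper89.SG.S1

/-!
# Project UN (MP_d3128a_ag), packet GNs: shear
-/

set_option autoImplicit false

namespace Pool.Agent.Helper89.UN

open Finset
open Pool.Agent.Lead.Sh
open Pool.Agent.Helper18.SG (ex)
open Pool.Agent.Helper43.UN
open Pool.Agent.Helper75.SG (Van van_zero van_mul van_one van_pow van_mono expand)

/-- the coefficients of the sheared polynomial -/
noncomputable def shc (ε t : ℂ) (c : ℕ × ℕ → ℂ) (d : ℕ × ℕ) : ℂ :=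
  ∑ k ∈ range (d.2 + 1), c (d.1 + k, d.2 - k) * (((d.1 + k).choose d.1 : ℂ) * ε ^ d.1 * t ^ k)

/-- the identity in degree `n` -/
theorem shc_id {R : Type} [CommRing R] [Algebra ℂ R] (ε t : ℂ) (c : ℕ × ℕ → ℂ) (n : ℕ)
    (x y : R) :
    ∑ a ∈ range (n + 1), algebraMap ℂ R (shc ε t c (a, n - a)) * (x ^ a * y ^ (n - a)) =
    ∑ i ∈ range (n + 1), algebraMap ℂ R (c (i, n - i)) *
      ((algebraMap ℂ R ε * x + algebraMap ℂ R t * y) ^ i * y ^ (n - i)) := by
  have h1 : ∀ i ∈ range (n + 1), algebraMap ℂ R (c (i, n - i)) *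
      ((algebraMap ℂ R ε * x + algebraMap ℂ R t * y) ^ i * y ^ (n - i)) =
      ∑ a ∈ range (i + 1), algebraMap ℂ R (c (i, n - i) *
        ((i.choose a : ℂ) * ε ^ a * t ^ (i - a))) * (x ^ a * y ^ (n - a)) := by
    intro i hi
    rw [mem_range] at hi
    rw [add_pow, sum_mul, mul_sum]
    refine sum_congr rfl fun a ha => ?_
    rw [mem_range] at ha
    have h2 : n - a = (i - a) + (n - i) := by omega
    rw [h2, pow_add y, mul_pow, mul_pow]
    simp only [map_mul, map_pow, map_natCast]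
    ring
  rw [sum_congr rfl h1]
  have h3 : ∑ i ∈ range (n + 1), ∑ a ∈ range (i + 1), algebraMap ℂ R (c (i, n - i) *
        ((i.choose a : ℂ) * ε ^ a * t ^ (i - a))) * (x ^ a * y ^ (n - a)) =
      ∑ a ∈ range (n + 1), ∑ i ∈ Ico a (n + 1), algebraMap ℂ R (c (i, n - i) *
        ((i.choose a : ℂ) * ε ^ a * t ^ (i - a))) * (x ^ a * y ^ (n - a)) := by
    refine sum_comm' ?_
    intro i a
    simp only [mem_range, mem_Ico]
    omega
  rw [h3]
  refine sum_congr rfl fun a ha => ?_
  rw [mem_range] at ha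
  rw [sum_Ico_eq_sum_range, shc, map_sum, sum_mul]
  have h4 : n + 1 - a = n - a + 1 := by omega
  simp only
  rw [h4]
  refine sum_congr rfl fun k hk => ?_
  have h5 : n - (a + k) = n - a - k := by omega
  rw [h5, Nat.add_sub_cancel_left]

/-- sums over the triangle by degree -/
theorem sum_triD {R : Type} [AddCommMonoid R] (e : ℕ) (f : ℕ × ℕ → R) :
    ∑ d ∈ triD 0 e, f d = ∑ n ∈ range (e + 1), ∑ a ∈ range (n + 1), f (a, n - a) := by
  rw [sum_sigma']
  symm
  refine sum_bij (fun p _ => (p.2, p.1 - p.2)) ?_ ?_ ?_ ?_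
  · intro p hp
    simp only [mem_sigma, mem_range] at hp
    rw [mem_triD]
    exact ⟨Nat.zero_le _, by simp only; omega⟩
  · intro p hp q hq h
    simp only [mem_sigma, mem_range] at hp hq
    simp only [Prod.mk.injEq] at h
    obtain ⟨p1, p2⟩ := p
    obtain ⟨q1, q2⟩ := q
    simp only at hp hq h
    obtain ⟨h1, h2⟩ := h
    subst h1
    have : p1 = q1 := by omega
    subst this
    rfl
  · intro d hd
    rw [mem_triD] at hd
    refine ⟨⟨d.1 + d.2, d.1⟩, ?_, ?_⟩
    · simp only [mem_sigma, mem_range]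
      omega
    · exact Prod.ext rfl (by simp)
  · intro p _
    rfl

/-- the identity -/
theorem shc_tri {R : Type} [CommRing R] [Algebra ℂ R] (ε t : ℂ) (c : ℕ × ℕ → ℂ) (e : ℕ)
    (x y : R) :
    ∑ d ∈ triD 0 e, algebraMap ℂ R (shc ε t c d) * (x ^ d.1 * y ^ d.2) =
    ∑ d ∈ triD 0 e, algebraMap ℂ R (c d) *
      ((algebraMap ℂ R ε * x + algebraMap ℂ R t * y) ^ d.1 * y ^ d.2) := by
  rw [sum_triD, sum_triD]
  exact sum_congr rfl fun n _ => shc_id ε t c n x y

theorem shear_cond (ε t : ℂ) (c : ℕ × ℕ → ℂ) (e μ : ℕ) (x0 y0 : ℂ)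
    (hc : ∀ o : ℕ × ℕ, o.1 + o.2 < μ →
      ∑ d ∈ triD 0 e, c d * E o d (ε * x0 + t * y0) y0 = 0)
    (o : ℕ × ℕ) (ho : o.1 + o.2 < μ) : ∑ d ∈ triD 0 e, shc ε t c d * E o d x0 y0 = 0 := by
  have hCa : ∀ z : ℂ, (algebraMap ℂ (MvPolynomial (Fin 2) ℂ)) z = MvPolynomial.C z := fun z => rfl
  have h1 : ∑ d ∈ triD 0 e, shc ε t c d * E o d x0 y0 = MvPolynomial.coeff (ex o)
      (∑ d ∈ triD 0 e, MvPolynomial.C (shc ε t c d) *
        ((MvPolynomial.X 0 + MvPolynomial.C x0) ^ d.1 *
          (MvPolynomial.X 1 + MvPolynomial.C y0) ^ d.2) : MvPolynomial (Fin 2) ℂ) := by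
    rw [MvPolynomial.coeff_sum]
    refine Finset.sum_congr rfl fun d _ => ?_
    rw [MvPolynomial.coeff_C_mul, Pool.Agent.Helper89.SG.coeff_prod]
  obtain ⟨p, hp⟩ : ∃ p : MvPolynomial (Fin 2) ℂ, p = MvPolynomial.C ε * MvPolynomial.X 0 +
    MvPolynomial.C t * MvPolynomial.X 1 := ⟨_, rfl⟩
  have key : (∑ d ∈ triD 0 e, MvPolynomial.C (shc ε t c d) *
        ((MvPolynomial.X 0 + MvPolynomial.C x0) ^ d.1 *
          (MvPolynomial.X 1 + MvPolynomial.C y0) ^ d.2) : MvPolynomial (Fin 2) ℂ) =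
      ∑ i ∈ range (e + 1), ∑ j ∈ range (e + 1),
        MvPolynomial.C (∑ d ∈ triD 0 e, c d * E (i, j) d (ε * x0 + t * y0) y0) *
          (p ^ i * MvPolynomial.X 1 ^ j) := by
    have h2 := shc_tri (R := MvPolynomial (Fin 2) ℂ) ε t c e
      (MvPolynomial.X 0 + MvPolynomial.C x0) (MvPolynomial.X 1 + MvPolynomial.C y0)
    simp only [hCa] at h2
    rw [h2]
    have h3 : (MvPolynomial.C ε * (MvPolynomial.X 0 + MvPolynomial.C x0) +
        MvPolynomial.C t * (MvPolynomial.X 1 + MvPolynomial.C y0) : MvPolynomial (Fin 2) ℂ) =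
        MvPolynomial.C (ε * x0 + t * y0) + p := by
      rw [hp, map_add, map_mul, map_mul]
      ring
    rw [h3]
    have h4 : ∀ d ∈ triD 0 e, (MvPolynomial.C (c d) *
        ((MvPolynomial.C (ε * x0 + t * y0) + p) ^ d.1 *
          (MvPolynomial.X 1 + MvPolynomial.C y0) ^ d.2) : MvPolynomial (Fin 2) ℂ) =
        ∑ i ∈ range (e + 1), ∑ j ∈ range (e + 1),
          MvPolynomial.C (c d * E (i, j) d (ε * x0 + t * y0) y0) *
            (p ^ i * MvPolynomial.X 1 ^ j) := by
      intro d hd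
      rw [mem_triD] at hd
      rw [add_comm (MvPolynomial.X 1) (MvPolynomial.C y0),
        expand (MvPolynomial.C (ε * x0 + t * y0)) p d.1 e (by omega),
        expand (MvPolynomial.C y0) (MvPolynomial.X 1) d.2 e (by omega), Finset.sum_mul_sum,
        Finset.mul_sum]
      refine Finset.sum_congr rfl fun i _ => ?_
      rw [Finset.mul_sum]
      refine Finset.sum_congr rfl fun j _ => ?_
      simp only [E, map_mul, map_pow, map_natCast]
      ring
    rw [Finset.sum_congr rfl h4, Finset.sum_comm]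
    refine Finset.sum_congr rfl fun i _ => ?_
    rw [Finset.sum_comm]
    refine Finset.sum_congr rfl fun j _ => ?_
    rw [map_sum, Finset.sum_mul]
  rw [h1, key, MvPolynomial.coeff_sum]
  refine Finset.sum_eq_zero fun i _ => ?_
  rw [MvPolynomial.coeff_sum]
  refine Finset.sum_eq_zero fun j _ => ?_
  rw [MvPolynomial.coeff_C_mul]
  rcases lt_or_ge (i + j) μ with h | h
  · rw [hc (i, j) h, zero_mul]
  · have hp1 : Van 1 p := by
      apply van_one
      rw [hp]
      simp
    have hq1 : Van 1 (MvPolynomial.X 1 : MvPolynomial (Fin 2) ℂ) := by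
      apply van_one
      simp
    have h2 := van_mul (van_pow hp1 i) (van_pow hq1 j)
    rw [van_mono h h2 (ex o) ?_, mul_zero]
    have : (ex o).degree = o.1 + o.2 := by
      rw [ex, map_add, Finsupp.degree_single, Finsupp.degree_single]
    omega

theorem shc_poly (ε t : ℂ) (c : ℕ × ℕ → ℂ) (n : ℕ) :
    ∑ i ∈ range (n + 1), Polynomial.C (shc ε t c (i, n - i)) * Polynomial.X ^ i =
      (∑ i ∈ range (n + 1), Polynomial.C (c (i, n - i)) * Polynomial.X ^ i).comp
        (Polynomial.C ε * Polynomial.X + Polynomial.C t) := by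
  have h := shc_id (R := Polynomial ℂ) ε t c n Polynomial.X 1
  simp only [one_pow, mul_one, Polynomial.algebraMap_eq] at h
  rw [h, Polynomial.sum_comp]
  refine sum_congr rfl fun i _ => ?_
  rw [Polynomial.mul_comp, Polynomial.C_comp, Polynomial.pow_comp, Polynomial.X_comp]

theorem goalGNs : GoalGNs := by
  intro m e s t ε P c hε hc
  refine ⟨shc ε t c, ?_, shc_poly ε t c e, ?_⟩
  · intro r hr
    have hr' := (mem_rows m s r).1 hr
    refine shear_cond ε t c e (m r.1) (P r.1).1 (P r.1).2 ?_ r.2 hr'.2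
    intro o ho
    exact hc (r.1, o) ((mem_rows m s _).2 ⟨hr'.1, ho⟩)
  · intro h0 d hd
    rw [mem_triD] at hd
    obtain ⟨n, hn⟩ : ∃ n, n = d.1 + d.2 := ⟨_, rfl⟩
    have h1 := shc_poly ε t c n
    have h2 : ∑ i ∈ range (n + 1), Polynomial.C (shc ε t c (i, n - i)) *
        (Polynomial.X : Polynomial ℂ) ^ i = 0 := by
      refine sum_eq_zero fun i hi => ?_
      rw [mem_range] at hi
      rw [h0 (i, n - i) (by rw [mem_triD]; exact ⟨Nat.zero_le _, by simp only; omega⟩), map_zero,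
        zero_mul]
    rw [h2] at h1
    have h3 : (∑ i ∈ range (n + 1), Polynomial.C (c (i, n - i)) *
        (Polynomial.X : Polynomial ℂ) ^ i) = 0 := by
      have h4 := congrArg (fun p : Polynomial ℂ => p.comp
        (Polynomial.C ε⁻¹ * (Polynomial.X - Polynomial.C t))) h1
      simp only [Polynomial.zero_comp] at h4
      rw [Polynomial.comp_assoc] at h4
      have h5 : (Polynomial.C ε * Polynomial.X + Polynomial.C t).comp
          (Polynomial.C ε⁻¹ * (Polynomial.X - Polynomial.C t)) = Polynomial.X := by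
        rw [Polynomial.add_comp, Polynomial.mul_comp, Polynomial.C_comp, Polynomial.C_comp,
          Polynomial.X_comp, ← mul_assoc, ← Polynomial.C_mul, mul_inv_cancel₀ hε,
          Polynomial.C_1, one_mul, sub_add_cancel]
      rw [h5, Polynomial.comp_X] at h4
      exact h4.symm
    have h6 := congrArg (fun p : Polynomial ℂ => p.coeff d.1) h3
    simp only [Polynomial.finsetSum_coeff, Polynomial.coeff_C_mul, Polynomial.coeff_X_pow,
      Polynomial.coeff_zero] at h6
    rw [sum_eq_single d.1] at h6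
    · rw [if_pos rfl, mul_one, hn, Nat.add_sub_cancel_left] at h6
      exact h6
    · intro i _ hi
      rw [if_neg (Ne.symm hi), mul_zero]
    · intro h
      rw [mem_range] at h
      omega

end Pool.Agent.Helper89.UN
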