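import Mathlib
import Pool.Agent.Helper43.UN.GoalsH
import Pool.Agent.Helper55.UW.RL

/-!
# Project UN, packet RL2n: renumbering with three groups
-/

set_option autoImplicit false

namespace Pool.Agent.Helper89.UN

open Finset
open Pool.Agent.Lead.Sh
open Pool.Agent.Helper43.UN

/-- an enumeration of a finite set of numbers along which `m` decreases -/
theorem exists_enum_desc (m : ℕ → ℕ) (s : Finset ℕ) : ∃ f g : ℕ → ℕ,
    (∀ c < s.card, f c ∈ s ∧ g (f c) = c) ∧ (∀ k ∈ s, g k < s.card ∧ f (g k) = k) ∧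
    (∀ c c', c ≤ c' → c' < s.card → m (f c') ≤ m (f c)) := by
  obtain ⟨f, g, hf, hg, hmo⟩ := Pool.Agent.Helper55.UW.exists_enum m s
  refine ⟨fun c => f (s.card - 1 - c), fun k => s.card - 1 - g k, ?_, ?_, ?_⟩
  · intro c hc
    have h1 := hf (s.card - 1 - c) (by omega)
    refine ⟨h1.1, ?_⟩
    simp only [h1.2]
    omega
  · intro k hk
    have h1 := hg k hk
    refine ⟨?_, ?_⟩
    · show s.card - 1 - g k < s.card
      omega
    · show f (s.card - 1 - (s.card - 1 - g k)) = k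
      rw [show s.card - 1 - (s.card - 1 - g k) = g k by omega]
      exact h1.2
  · intro c c' h1 h2
    exact hmo (s.card - 1 - c') (s.card - 1 - c) (by omega) (by omega)

/-- **Packet RL2n.** -/
theorem goalRL2n : GoalRL2n := by
  classical
  intro A0 Hg Bg m hH hB hdis hm1
  have hHB : Hg ∪ Bg ⊆ A0 := union_subset hH hB
  obtain ⟨f1, g1, hf1, hg1, -⟩ := exists_enum_desc m Hg
  obtain ⟨f2, g2, hf2, hg2, -⟩ := exists_enum_desc m Bg
  obtain ⟨f3, g3, hf3, hg3, hmo⟩ := exists_enum_desc m (A0 \ (Hg ∪ Bg))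
  set N00 := Hg.card with hN00
  set n2 := Bg.card with hn2
  set n3 := (A0 \ (Hg ∪ Bg)).card with hn3
  set σ : ℕ → ℕ := fun c => if c < N00 then f1 c else if c < N00 + n2 then f2 (c - N00)
    else f3 (c - (N00 + n2)) with hσ
  set ρ : ℕ → ℕ := fun k => if k ∈ Hg then g1 k else if k ∈ Bg then N00 + g2 k
    else N00 + n2 + g3 k with hρ
  have hσ1 : ∀ c < N00, σ c ∈ Hg ∧ ρ (σ c) = c := by
    intro c hc
    have h1 := hf1 c hc
    simp only [hσ, if_pos hc]
    refine ⟨h1.1, ?_⟩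
    simp only [hρ, if_pos h1.1]
    exact h1.2
  have hσ2 : ∀ c, N00 ≤ c → c < N00 + n2 → σ c ∈ Bg ∧ ρ (σ c) = c := by
    intro c hc hc'
    have h1 := hf2 (c - N00) (by omega)
    have h3 : ¬ c < N00 := by omega
    simp only [hσ, if_neg h3, if_pos hc']
    refine ⟨h1.1, ?_⟩
    have h4 : f2 (c - N00) ∉ Hg := fun h => disjoint_left.1 hdis h h1.1
    simp only [hρ, if_neg h4, if_pos h1.1]
    rw [h1.2]
    omega
  have hσ3 : ∀ c, N00 + n2 ≤ c → c < N00 + n2 + n3 →
      σ c ∈ A0 \ (Hg ∪ Bg) ∧ ρ (σ c) = c := by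
    intro c hc hc'
    have h1 := hf3 (c - (N00 + n2)) (by omega)
    have h3 : ¬ c < N00 := by omega
    have h4 : ¬ c < N00 + n2 := by omega
    simp only [hσ, if_neg h3, if_neg h4]
    refine ⟨h1.1, ?_⟩
    have h5 := (mem_sdiff.1 h1.1).2
    rw [mem_union, not_or] at h5
    simp only [hρ, if_neg h5.1, if_neg h5.2]
    rw [h1.2]
    omega
  have hρ1 : ∀ k ∈ Hg, ρ k < N00 ∧ σ (ρ k) = k := by
    intro k hk
    have h1 := hg1 k hk
    simp only [hρ, if_pos hk, hσ, if_pos h1.1]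
    exact ⟨h1.1, h1.2⟩
  have hρ2 : ∀ k ∈ Bg, (N00 ≤ ρ k ∧ ρ k < N00 + n2) ∧ σ (ρ k) = k := by
    intro k hk
    have h1 := hg2 k hk
    have h4 : k ∉ Hg := fun h => disjoint_left.1 hdis h hk
    have h5 : ¬ N00 + g2 k < N00 := by omega
    have h6 : N00 + g2 k < N00 + n2 := by omega
    simp only [hρ, if_neg h4, if_pos hk, hσ, if_neg h5, if_pos h6]
    refine ⟨⟨by omega, h6⟩, ?_⟩
    rw [show N00 + g2 k - N00 = g2 k by omega]
    exact h1.2
  have hρ3 : ∀ k ∈ A0 \ (Hg ∪ Bg), (N00 + n2 ≤ ρ k ∧ ρ k < N00 + n2 + n3) ∧ σ (ρ k) = k := by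
    intro k hk
    have h1 := hg3 k hk
    have h5 := (mem_sdiff.1 hk).2
    rw [mem_union, not_or] at h5
    have h6 : ¬ N00 + n2 + g3 k < N00 := by omega
    have h7 : ¬ N00 + n2 + g3 k < N00 + n2 := by omega
    simp only [hρ, if_neg h5.1, if_neg h5.2, hσ, if_neg h6, if_neg h7]
    refine ⟨⟨by omega, by omega⟩, ?_⟩
    rw [show N00 + n2 + g3 k - (N00 + n2) = g3 k by omega]
    exact h1.2
  have hσA : ∀ c < N00 + n2 + n3, σ c ∈ A0 ∧ ρ (σ c) = c := by
    intro c hc
    by_cases h : c < N00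
    · exact ⟨hH (hσ1 c h).1, (hσ1 c h).2⟩
    · by_cases h' : c < N00 + n2
      · exact ⟨hB (hσ2 c (by omega) h').1, (hσ2 c (by omega) h').2⟩
      · exact ⟨(mem_sdiff.1 (hσ3 c (by omega) hc).1).1, (hσ3 c (by omega) hc).2⟩
  have hρA : ∀ k ∈ A0, ρ k < N00 + n2 + n3 ∧ σ (ρ k) = k := by
    intro k hk
    by_cases h : k ∈ Hg
    · have h1 := hρ1 k h
      exact ⟨by omega, h1.2⟩
    · by_cases h' : k ∈ Bg
      · have h1 := hρ2 k h'
        exact ⟨by omega, h1.2⟩
      · have h1 := hρ3 k (mem_sdiff.2 ⟨hk, by rw [mem_union]; tauto⟩)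
        exact ⟨by omega, h1.2⟩
  set m' : ℕ → ℕ := fun c => if c < N00 + n2 + n3 then m (σ c) else 1 with hm'
  have hm'1 : ∀ c < N00 + n2 + n3, m' c = m (σ c) := by
    intro c hc
    simp only [hm', if_pos hc]
  have hm'2 : ∀ c, N00 + n2 + n3 ≤ c → m' c = 1 := by
    intro c hc
    have : ¬ c < N00 + n2 + n3 := by omega
    simp only [hm', if_neg this]
  have hS1 : ∑ c ∈ range N00, (m' c + 1).choose 2 = ∑ k ∈ Hg, (m k + 1).choose 2 := by
    refine sum_nbij' σ ρ ?_ ?_ ?_ ?_ ?_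
    · intro c hc
      exact (hσ1 c (mem_range.1 hc)).1
    · intro k hk
      exact mem_range.2 (hρ1 k hk).1
    · intro c hc
      exact (hσ1 c (mem_range.1 hc)).2
    · intro k hk
      exact (hρ1 k hk).2
    · intro c hc
      rw [hm'1 c (by have := mem_range.1 hc; omega)]
  refine ⟨m', N00, N00 + n2, N00 + n2 + n3, by omega, by omega, ?_, ?_, ?_, hm'2, ?_, hS1, ?_,
    ?_, ?_⟩
  · intro c hc
    exact ⟨σ c, (hσ1 c hc).1, hm'1 c (by omega)⟩
  · intro c hc hc'
    exact ⟨σ c, (hσ2 c hc hc').1, hm'1 c (by omega)⟩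
  · intro c hc hc'
    have h1 := mem_sdiff.1 (hσ3 c hc hc').1
    have h2 := h1.2
    rw [mem_union, not_or] at h2
    exact ⟨σ c, h1.1, h2.1, h2.2, hm'1 c hc'⟩
  · intro c c' h1 h2
    by_cases h3 : c' < N00 + n2 + n3
    · rw [hm'1 c (by omega), hm'1 c' h3]
      have h4 : ¬ c < N00 := by omega
      have h5 : ¬ c < N00 + n2 := by omega
      have h6 : ¬ c' < N00 := by omega
      have h7 : ¬ c' < N00 + n2 := by omega
      simp only [hσ, if_neg h4, if_neg h5, if_neg h6, if_neg h7]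
      exact hmo (c - (N00 + n2)) (c' - (N00 + n2)) (by omega) (by omega)
    · rw [hm'2 c' (by omega)]
      by_cases h4 : c < N00 + n2 + n3
      · rw [hm'1 c h4]
        exact hm1 _ (hσA c h4).1
      · rw [hm'2 c (by omega)]
  · rw [← sum_union hdis]
    refine sum_nbij' σ ρ ?_ ?_ ?_ ?_ ?_
    · intro c hc
      have hc' := mem_range.1 hc
      by_cases h : c < N00
      · exact mem_union_left _ (hσ1 c h).1
      · exact mem_union_right _ (hσ2 c (by omega) hc').1
    · intro k hk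
      rcases mem_union.1 hk with h | h
      · have := (hρ1 k h).1
        exact mem_range.2 (by omega)
      · exact mem_range.2 (hρ2 k h).1.2
    · intro c hc
      have hc' := mem_range.1 hc
      exact (hσA c (by omega)).2
    · intro k hk
      exact (hρA k (hHB hk)).2
    · intro c hc
      have hc' := mem_range.1 hc
      rw [hm'1 c (by omega)]
  · refine sum_nbij' σ ρ ?_ ?_ ?_ ?_ ?_
    · intro c hc
      exact (hσA c (mem_range.1 hc)).1
    · intro k hk
      exact mem_range.2 (hρA k hk).1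
    · intro c hc
      exact (hσA c (mem_range.1 hc)).2
    · intro k hk
      exact (hρA k hk).2
    · intro c hc
      rw [hm'1 c (mem_range.1 hc)]
  · intro D
    refine (Pool.Agent.Helper55.UW.rx_gen (f := σ) (g := ρ) ?_ ?_).1
    · intro c hc
      have hc' := mem_range.1 hc
      exact ⟨(hσA c hc').1, (hσA c hc').2, (hm'1 c hc').symm⟩
    · intro k hk
      exact ⟨mem_range.2 (hρA k hk).1, (hρA k hk).2⟩

end Pool.Agent.Helper89.UN
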