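import Pool.Agent.Helper79.UN.NGoals

/-!
# MP_57a173_lc, part N, packet LOC
-/

namespace UN.PkLOC

open Pool.Agent.Helper97.Ku NU UL

variable {L : Type} [CompleteBooleanAlgebra L]

theorem le_iffV {a x y : L} : a ≤ iffV x y ↔ a ⊓ x ≤ y ∧ a ⊓ y ≤ x := by
  unfold iffV
  rw [le_inf_iff, le_himp_iff, le_himp_iff]

theorem op_le {a : L} {q q' : List Bool → L} {r : ℕ → L}
    (h : ∀ σ, a ⊓ q σ ≤ q' σ) : a ⊓ opV q r ≤ opV q' r := by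
  unfold opV
  rw [inf_iSup_eq]
  refine iSup_mono fun σ => ?_
  rw [← inf_assoc]
  exact inf_le_inf_right _ (h σ)

theorem compl_le {a x y : L} (h : a ⊓ y ≤ x) : a ⊓ xᶜ ≤ yᶜ := by
  rw [le_compl_iff_disjoint_right, disjoint_iff_inf_le]
  calc a ⊓ xᶜ ⊓ y = (a ⊓ y) ⊓ xᶜ := by rw [inf_right_comm]
    _ ≤ x ⊓ xᶜ := inf_le_inf_right _ h
    _ = ⊥ := inf_compl_self x

theorem fs_le {a : L} {q q' : ℕ → List Bool → L} {r : ℕ → L}
    (h : ∀ n σ, a ⊓ q' n σ ≤ q n σ) : a ⊓ fsV q r ≤ fsV q' r := by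
  unfold fsV
  rw [inf_iSup_eq]
  exact iSup_mono fun n => compl_le (op_le (h n))

theorem loc_pf : U_LOC := by
  intro L _ q q' a r h
  rw [le_iffV]
  exact ⟨fs_le fun n σ => (le_iffV.1 (h n σ)).2, fs_le fun n σ => (le_iffV.1 (h n σ)).1⟩

end UN.PkLOC
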